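import Pool.Agent.Fro.Grl

/-!
Small inertial index, and noncommutative inertial quotients of order `q r`.
-/

set_option autoImplicit false

namespace Pool.Agent.Fro

open Classical
open scoped Pointwise
open Pool.Agent.KB Pool.Agent.KB.ContrAux Pool.Agent.KBL Pool.Agent.KBZ Pool.Agent.KBU
  Pool.Agent.KBQ Pool.Agent.MSy Pool.Agent.BlkS Pool.Agent.PIs Pool.Agent.PIg Pool.Agent.Ity
  Pool.Agent.Isk Pool.Agent.BrZ Pool.Agent.Dih

/-- Inertial quotients with two or fifteen elements are commutative. -/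
theorem comm_of (G : Type) [Group G] [Finite G] (p : ℕ) (hp : p.Prime)
    (𝔪 : Ideal AInt)
    (h𝔪 : 𝔪.IsMaximal) (hp𝔪 : (p : AInt) ∈ 𝔪) (χ : G → ℂ) (hχ : χ ∈ Irr G)
    (D : Subgroup G) (hab : ∀ a ∈ D, ∀ b ∈ D, a * b = b * a)
    (hD : Nat.card D = p ^ defect p (block 𝔪 χ))
    (ζ : Subgroup.centralizer (D : Set G) → ℂ)
    (hζ : ζ ∈ Irr (Subgroup.centralizer (D : Set G)))
    (hind : Induces 𝔪 (Subgroup.centralizer (D : Set G)) ζ χ)
    (e : ℕ) (he : Nat.card (inertia 𝔪 D ζ) = e * Nat.card (Subgroup.centralizer (D : Set G)))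
    (h : e = 2 ∨ e = 15) :
    ∀ g ∈ inertia 𝔪 D ζ, ∀ h ∈ inertia 𝔪 D ζ,
      g * h * g⁻¹ * h⁻¹ ∈ Subgroup.centralizer (D : Set G) := by
  have : Fintype G := Fintype.ofFinite G
  have : Fintype (Subgroup.centralizer (D : Set G)) := Fintype.ofFinite _
  have : Fintype (Subgroup.normalizer (D : Set G)) := Fintype.ofFinite _
  have hA := Sub_AbD p 𝔪 χ hχ D hab hD ζ hζ hind
  obtain ⟨D₀, E₀, _, _, _, _, _, A, hδ, hι, hζ'⟩ := ex_dat p hp 𝔪 h𝔪 hp𝔪 χ hχ D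
    (Subgroup.centralizer (D : Set G)).subtype ζ hA
  have hmem := grl_mem A hδ hι hζ'
  have hcC : Nat.card (inertia 𝔪 D ζ) =
      Nat.card (Subgroup.centralizer (D : Set G)) * Nat.card E₀ := by
    rw [← grl_all A]
    exact (Nat.card_congr (Equiv.subtypeEquivRight hmem)).symm
  have hecard : Nat.card E₀ = e := by
    have h3 : e * Nat.card (Subgroup.centralizer (D : Set G)) =
        Nat.card E₀ * Nat.card (Subgroup.centralizer (D : Set G)) := by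
      rw [← he, hcC, mul_comm]
    exact (Nat.eq_of_mul_eq_mul_right Nat.card_pos h3).symm
  rw [grl_comm A hδ hι hζ']
  rcases h with rfl | rfl
  · have : Fact (Nat.Prime 2) := ⟨Nat.prime_two⟩
    have hcy : IsCyclic E₀ := isCyclic_of_prime_card hecard
    have := hcy.commutative
    exact fun a b => this.is_comm.comm a b
  · by_contra hnc
    obtain ⟨C, a, F⟩ := ex_Fo (q := 3) (r := 5) (by norm_num) (by norm_num) le_rfl (by norm_num)
      (by rw [hecard]) hnc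
    obtain ⟨h, -, hh⟩ := F.mod
    omega

/-- Small inertial index, and noncommutative inertial quotients of order `q r`. -/
theorem fin_main (G : Type) [Group G] [Finite G] (p : ℕ) (hp : p.Prime)
    (𝔪 : Ideal AInt)
    (h𝔪 : 𝔪.IsMaximal) (hp𝔪 : (p : AInt) ∈ 𝔪) (χ : G → ℂ) (hχ : χ ∈ Irr G)
    (D : Subgroup G) (hab : ∀ a ∈ D, ∀ b ∈ D, a * b = b * a)
    (hD : Nat.card D = p ^ defect p (block 𝔪 χ))
    (ζ : Subgroup.centralizer (D : Set G) → ℂ)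
    (hζ : ζ ∈ Irr (Subgroup.centralizer (D : Set G)))
    (hind : Induces 𝔪 (Subgroup.centralizer (D : Set G)) ζ χ)
    (e : ℕ) (he : Nat.card (inertia 𝔪 D ζ) = e * Nat.card (Subgroup.centralizer (D : Set G)))
    (hep : e * (e + 3) ≤ p)
    (hel : e ∈ ({2, 3, 4, 5, 6, 7, 9, 10, 11, 13, 14, 15} : Finset ℕ) ∨
      ((¬ ∀ g ∈ inertia 𝔪 D ζ, ∀ h ∈ inertia 𝔪 D ζ,
          g * h * g⁻¹ * h⁻¹ ∈ Subgroup.centralizer (D : Set G)) ∧
        ∃ q r : ℕ, q.Prime ∧ r.Prime ∧ q < r ∧ e = q * r ∧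
          ((r = 2 * q + 1 ∧ q ≠ 3) ∨ ∃ x ∈ D,
            Nat.card {g : G // g ∈ inertia 𝔪 D ζ ∧ g * x = x * g} =
              r * Nat.card (Subgroup.centralizer (D : Set G))))) :
    ((((∀ g ∈ inertia 𝔪 D ζ, ∀ h ∈ inertia 𝔪 D ζ,
          g * h * g⁻¹ * h⁻¹ ∈ Subgroup.centralizer (D : Set G)) ∧
        ell p (block 𝔪 χ) = e ∧ (block 𝔪 χ).ncard * Nat.card (inertia 𝔪 D ζ) *
            Nat.card (Subgroup.centralizer (D : Set G)) =
          ∑ᶠ x : D, Nat.card {g : G // g ∈ inertia 𝔪 D ζ ∧ g * x = x * g} ^ 2) ∨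
      ((¬ ∀ g ∈ inertia 𝔪 D ζ, ∀ h ∈ inertia 𝔪 D ζ,
          g * h * g⁻¹ * h⁻¹ ∈ Subgroup.centralizer (D : Set G)) ∧
        ∃ q r : ℕ, q.Prime ∧ r.Prime ∧ q < r ∧ e = q * r ∧
          ell p (block 𝔪 χ) = q + (r - 1) / q)) ∧
      (∀ ψ ∈ Irr (Subgroup.normalizer (D : Set G)),
        Induces 𝔪 ((Subgroup.centralizer (D : Set G)).subgroupOf
          (Subgroup.normalizer (D : Set G))) (fun y => ζ ⟨y.1.1, y.2⟩) ψ →
        ell p (block 𝔪 χ) = ell p (block 𝔪 ψ) ∧ (block 𝔪 χ).ncard = (block 𝔪 ψ).ncard) ∧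
      ConBrI G p 𝔪 χ D ζ ∧ ConAllI G p 𝔪 χ D ζ) ∨
    ((∀ g ∈ inertia 𝔪 D ζ, ∀ h ∈ inertia 𝔪 D ζ,
        g * h * g⁻¹ * h⁻¹ ∈ Subgroup.centralizer (D : Set G)) ∧
      (e = 15 ∨ ∃ n : ℕ, (n = 2 ∨ n = 3) ∧ n * (n + 3) < p ∧
        ∀ g ∈ inertia 𝔪 D ζ, g ^ n ∈ Subgroup.centralizer (D : Set G))) := by
  have hcm := comm_of G p hp 𝔪 h𝔪 hp𝔪 χ hχ D hab hD ζ hζ hind e he
  have key := small_main G p hp 𝔪 h𝔪 hp𝔪 χ hχ D hab hD ζ hζ hind e he hep
  by_cases h15 : e = 15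
  · exact Or.inr ⟨hcm (Or.inr h15), Or.inl h15⟩
  by_cases hfro : ∃ q r : ℕ, q.Prime ∧ r.Prime ∧ 3 ≤ q ∧ q < r ∧ e = q * r ∧
      (¬ ∀ g ∈ inertia 𝔪 D ζ, ∀ h ∈ inertia 𝔪 D ζ,
          g * h * g⁻¹ * h⁻¹ ∈ Subgroup.centralizer (D : Set G)) ∧
      ((r = 2 * q + 1 ∧ 5 ≤ q) ∨ ∃ x ∈ D,
            Nat.card {g : G // g ∈ inertia 𝔪 D ζ ∧ g * x = x * g} =
              r * Nat.card (Subgroup.centralizer (D : Set G)))
  · obtain ⟨q, r, hq, hr, h3, hqr, heq, hnc, hcs⟩ := hfro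
    obtain ⟨h1, h2⟩ := fro_main G p hp 𝔪 h𝔪 hp𝔪 χ hχ D hab hD ζ hζ hind e he hep hnc q r hq hr h3
      hqr heq hcs
    exact Or.inl ⟨Or.inr ⟨hnc, q, r, hq, hr, hqr, heq, h1⟩, h2⟩
  have hel' : e ∈ ({2, 3, 4, 5, 6, 7, 9, 10, 11, 13, 14} : Finset ℕ) ∨
      ((¬ ∀ g ∈ inertia 𝔪 D ζ, ∀ h ∈ inertia 𝔪 D ζ,
          g * h * g⁻¹ * h⁻¹ ∈ Subgroup.centralizer (D : Set G)) ∧
        ∃ q : ℕ, q.Prime ∧ q ≠ 2 ∧ e = 2 * q ∧ ∃ x ∈ D,
          Nat.card {g : G // g ∈ inertia 𝔪 D ζ ∧ g * x = x * g} =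
            q * Nat.card (Subgroup.centralizer (D : Set G))) := by
    rcases hel with hel | ⟨hnc, q, r, hq, hr, hqr, heq, hcs⟩
    · left
      simp only [Finset.mem_insert, Finset.mem_singleton] at hel ⊢
      omega
    · have hq2 : q = 2 := by
        by_contra h
        have h2 := hq.two_le
        refine hfro ⟨q, r, hq, hr, by omega, hqr, heq, hnc, hcs.imp (fun h' => ⟨h'.1, ?_⟩) id⟩
        have h4 : q ≠ 4 := by
          rintro rfl
          exact absurd hq (by norm_num)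
        omega
      subst hq2
      rcases hcs with ⟨h, -⟩ | hcs
      · left
        rw [heq, h]
        decide
      · exact Or.inr ⟨hnc, r, hr, by omega, heq, hcs⟩
  rcases key hel' with ⟨h1, h2⟩ | ⟨h1, h2⟩
  · left
    refine ⟨h1.imp id fun h => ⟨h.1, ?_⟩, h2⟩
    have h4 : 4 * ell p (block 𝔪 χ) = e + 6 := h.2
    rcases hel' with hel | ⟨hnc, q, hq, hq2, heq, -⟩
    · have h5 : e ≠ 2 := fun h6 => h.1 (hcm (Or.inl h6))
      simp only [Finset.mem_insert, Finset.mem_singleton] at hel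
      have h6 : e = 6 ∨ e = 10 ∨ e = 14 := by omega
      rcases h6 with rfl | rfl | rfl
      · exact ⟨2, 3, by norm_num, by norm_num, by norm_num, by norm_num, by omega⟩
      · exact ⟨2, 5, by norm_num, by norm_num, by norm_num, by norm_num, by omega⟩
      · exact ⟨2, 7, by norm_num, by norm_num, by norm_num, by norm_num, by omega⟩
    · have h5 := hq.two_le
      refine ⟨2, q, by norm_num, hq, by omega, heq, ?_⟩
      omega
  · exact Or.inr ⟨h1, Or.inr h2⟩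

end Pool.Agent.Fro
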