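import Pool.Agent.Dih.Grl
import Pool.Agent.Fro.Sys

/-!
Blocks with a noncommutative inertial quotient of order `q r`.
-/

set_option autoImplicit false

namespace Pool.Agent.Fro

open Classical
open scoped Pointwise
open Pool.Agent.KB Pool.Agent.KB.ContrAux Pool.Agent.KBL Pool.Agent.KBZ Pool.Agent.KBU
  Pool.Agent.KBQ Pool.Agent.MSy Pool.Agent.BlkS Pool.Agent.PIs Pool.Agent.PIg Pool.Agent.Ity
  Pool.Agent.Isk Pool.Agent.BrZ Pool.Agent.Dih

/-- The condition on `C`. -/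
theorem fro_C {D E : Type} [CommGroup D] [Group E] [Fintype E] [MulDistribMulAction E D] {q r : ℕ}
    {C : Subgroup E} {a : E} (H : Fo q r C a)
    (h : (r = 2 * q + 1 ∧ 5 ≤ q) ∨ ∃ P : Subgroup D, Nat.card (EE E P) = r) :
    (r = 2 * q + 1 ∧ 5 ≤ q) ∨ EE E (CD D C) = C := by
  rcases h with h | ⟨P, hP⟩
  · exact Or.inl h
  · right
    have h1 : EE E P = C := H.eq_C hP
    apply le_antisymm
    · rw [← h1]
      exact EE_mono (le_CD_EE P)
    · exact fun t ht v hv => hv t ht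

/-- The rank. -/
theorem fro_rank {K H D E : Type} [Group K] [Fintype K] [Group H] [Fintype H] [CommGroup D]
    [Fintype D] [Group E] [Fintype E] [MulDistribMulAction E D] {p : ℕ} {𝔪 : Ideal AInt}
    {χ₀ : K → ℂ} (A : BlkS.Dat K H D E p 𝔪 χ₀) (hl : Nat.card E * (Nat.card E + 3) ≤ p)
    {q r : ℕ} {C : Subgroup E} {a : E} (F : Fo q r C a)
    (hcs : (r = 2 * q + 1 ∧ 5 ≤ q) ∨ ∃ P : Subgroup D, Nat.card (EE E P) = r) :
    Module.finrank ℂ (A.sys.VS ⊥) = q + (r - 1) / q :=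
  fro_top F A.sys (A.sys.good_all hl) (fro_C F hcs)
    (fun P hP => dim_prime A F.hr P (by rw [hP, F.cC])) (fun P hP => dim_prime A F.hq P hP)
    EE_bot

/-- The isometries. -/
theorem fro_viso {K₁ H₁ K₂ H₂ D E : Type} [Group K₁] [Fintype K₁] [Group H₁] [Fintype H₁]
    [Group K₂] [Fintype K₂] [Group H₂] [Fintype H₂] [CommGroup D]
    [Fintype D] [Group E] [Fintype E] [MulDistribMulAction E D] {p : ℕ} {𝔪 : Ideal AInt}
    {χ₁ : K₁ → ℂ} {χ₂ : K₂ → ℂ} (A₁ : BlkS.Dat K₁ H₁ D E p 𝔪 χ₁) (A₂ : BlkS.Dat K₂ H₂ D E p 𝔪 χ₂)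
    (hl : Nat.card E * (Nat.card E + 3) ≤ p)
    {q r : ℕ} {C : Subgroup E} {a : E} (F : Fo q r C a)
    (hcs : (r = 2 * q + 1 ∧ 5 ≤ q) ∨ ∃ P : Subgroup D, Nat.card (EE E P) = r) :
    ∃ F, VIso A₁.sys A₂.sys F := by
  obtain ⟨s, hs⟩ := fro_bs F A₁.sys (A₁.sys.good_all hl) (fro_C F hcs)
    (fun P hP => dim_prime A₁ F.hr P (by rw [hP, F.cC])) (fun P hP => dim_prime A₁ F.hq P hP)
  obtain ⟨s', hs'⟩ := fro_bs F A₂.sys (A₂.sys.good_all hl) (fro_C F hcs)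
    (fun P hP => dim_prime A₂ F.hr P (by rw [hP, F.cC])) (fun P hP => dim_prime A₂ F.hq P hP)
  exact bs_iso hl hs hs'

/-- Noncommutative inertial quotients of order `q r`. -/
theorem fro_main (G : Type) [Group G] [Finite G] (p : ℕ) (hp : p.Prime)
    (𝔪 : Ideal AInt)
    (h𝔪 : 𝔪.IsMaximal) (hp𝔪 : (p : AInt) ∈ 𝔪) (χ : G → ℂ) (hχ : χ ∈ Irr G)
    (D : Subgroup G) (hab : ∀ a ∈ D, ∀ b ∈ D, a * b = b * a)
    (hD : Nat.card D = p ^ defect p (block 𝔪 χ))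
    (ζ : Subgroup.centralizer (D : Set G) → ℂ)
    (hζ : ζ ∈ Irr (Subgroup.centralizer (D : Set G)))
    (hind : Induces 𝔪 (Subgroup.centralizer (D : Set G)) ζ χ)
    (e : ℕ) (he : Nat.card (inertia 𝔪 D ζ) = e * Nat.card (Subgroup.centralizer (D : Set G)))
    (hep : e * (e + 3) ≤ p)
    (hnc : ¬ ∀ g ∈ inertia 𝔪 D ζ, ∀ h ∈ inertia 𝔪 D ζ,
      g * h * g⁻¹ * h⁻¹ ∈ Subgroup.centralizer (D : Set G))
    (q r : ℕ) (hq : q.Prime) (hr : r.Prime) (h3 : 3 ≤ q) (hqr : q < r) (heq : e = q * r)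
    (hcs : (r = 2 * q + 1 ∧ 5 ≤ q) ∨ ∃ x ∈ D,
      Nat.card {g : G // g ∈ inertia 𝔪 D ζ ∧ g * x = x * g} =
        r * Nat.card (Subgroup.centralizer (D : Set G))) :
    ell p (block 𝔪 χ) = q + (r - 1) / q ∧
      (∀ ψ ∈ Irr (Subgroup.normalizer (D : Set G)),
        Induces 𝔪 ((Subgroup.centralizer (D : Set G)).subgroupOf
          (Subgroup.normalizer (D : Set G))) (fun y => ζ ⟨y.1.1, y.2⟩) ψ →
        ell p (block 𝔪 χ) = ell p (block 𝔪 ψ) ∧ (block 𝔪 χ).ncard = (block 𝔪 ψ).ncard) ∧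
      ConBrI G p 𝔪 χ D ζ ∧ ConAllI G p 𝔪 χ D ζ := by
  have : Fintype G := Fintype.ofFinite G
  have : Fintype (Subgroup.centralizer (D : Set G)) := Fintype.ofFinite _
  have : Fintype (Subgroup.normalizer (D : Set G)) := Fintype.ofFinite _
  have hA := Sub_AbD p 𝔪 χ hχ D hab hD ζ hζ hind
  obtain ⟨D₀, E₀, _, _, _, _, _, A, hδ, hι, hζ'⟩ := ex_dat p hp 𝔪 h𝔪 hp𝔪 χ hχ D
    (Subgroup.centralizer (D : Set G)).subtype ζ hA
  have hmem := grl_mem A hδ hι hζ'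
  have hcC : Nat.card (inertia 𝔪 D ζ) =
      Nat.card (Subgroup.centralizer (D : Set G)) * Nat.card E₀ := by
    rw [← grl_all A]
    exact (Nat.card_congr (Equiv.subtypeEquivRight hmem)).symm
  have hecard : Nat.card E₀ = e := by
    have h3 : e * Nat.card (Subgroup.centralizer (D : Set G)) =
        Nat.card E₀ * Nat.card (Subgroup.centralizer (D : Set G)) := by
      rw [← he, hcC, mul_comm]
    exact (Nat.eq_of_mul_eq_mul_right Nat.card_pos h3).symm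
  have hl : Nat.card E₀ * (Nat.card E₀ + 3) ≤ p := by rw [hecard]; exact hep
  obtain ⟨C, a, F⟩ := ex_Fo hq hr h3 hqr (by rw [hecard, heq])
    (fun h => hnc ((grl_comm A hδ hι hζ').2 h))
  have hcs' : (r = 2 * q + 1 ∧ 5 ≤ q) ∨ ∃ P : Subgroup D₀, Nat.card (EE E₀ P) = r := by
    rcases hcs with h | ⟨x, hxD, hx⟩
    · exact Or.inl h
    · right
      obtain ⟨v, rfl⟩ := hδ.ge hxD
      refine ⟨jn ⊥ v, ?_⟩
      have h1 := A.stb_card (jn ⊥ v)
      have h2 : Nat.card {n : G // n ∈ Stb 𝔪 A.ab.cen A.ζ ∧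
          ∀ w ∈ jn ⊥ v, n * A.δ w = A.δ w * n} =
          Nat.card {g : G // g ∈ inertia 𝔪 D ζ ∧ g * A.δ v = A.δ v * g} := by
        refine Nat.card_congr (Equiv.subtypeEquivRight fun g => ?_)
        rw [hmem]
        refine and_congr_right fun _ => ⟨fun h => h v (mem_jn _ _), fun h w hw => ?_⟩
        rw [jn, bot_sup_eq, Subgroup.mem_zpowers_iff] at hw
        obtain ⟨k, rfl⟩ := hw
        rw [map_zpow]
        exact ((show Commute g (A.δ v) from h).zpow_right k)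
      rw [h2, hx, mul_comm] at h1
      exact (Nat.eq_of_mul_eq_mul_left Nat.card_pos h1).symm
  obtain ⟨g1, g2, g3⟩ := grl_iso hζ A hδ hι hζ' fun K₂ H₂ _ _ _ _ χ₂ A₂ =>
    fro_viso A A₂ hl F hcs'
  refine ⟨?_, g1, g2, g3⟩
  rw [← fro_rank A hl F hcs']
  exact A.finrank_bot.symm

end Pool.Agent.Fro
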